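import Pool.Agent.H7.GX.Stmts
import Pool.Agent.H56.GV.LIPG

/-!
# Board `gx10`, row LIPX
-/

set_option autoImplicit false

open Finset

namespace Pool.GX7

open Pool.Agent.H23.KT Pool.Agent.H46.KW Pool.KQ Pool.GT7 Pool.GU7 Pool.GV7

theorem LIPX_thm (hCCK : CCK0Stmt) (hDKU : DKUStmt) (hDML : DMLStmt)
    (hXSP : XSP0Stmt) (hNET : NET9Stmt) (hSIZ : SIZ0Stmt) (hXGR : XGR0Stmt) (hLMB : LMB0Stmt)
    (_hGCO : GCO0Stmt) (hGCX : GCXStmt) (hTRV : TRVStmt) : LIPXStmt := by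
  intro p r hP
  obtain ⟨h0, h1, -⟩ := hGCX p r hP
  refine LIPG_thm hCCK hDKU hDML hXSP hSIZ hXGR hLMB hTRV p 0 r h0 (hNET p 0 r h0 h1) ?_
  intro V _ G a e C W P U hS he he1 hCB z hz
  have h2 := (hCCK G p 0 r a e C W P U h0 hS he he1 hCB z hz).2.2.2
  have h3 : (0 : ℝ) ≤ (cc G p (un P) (p + 2) z : ℝ) + 1 / 2 * cc G p (un P) (p + 1) z := by
    positivity
  have h4 : 0 ≤ TZ G p r (un P) z := h3.trans h2
  have h5 : (kc G (nb G (un P) z) 0 : ℝ) = 1 := by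
    have : kc G (nb G (un P) z) 0 = 1 := kc_zero _ _
    rw [this]
    norm_num
  rw [h5, pow_zero, Nat.choose_zero_right]
  have h6 : (0 : ℝ) ≤ (a : ℝ) ^ (p + 3) := by positivity
  have h7 : 0 ≤ 2 ^ (p + 4) * ((p : ℝ) + 3) * TZ G p r (un P) z :=
    mul_nonneg (by positivity) h4
  push_cast
  linarith

end Pool.GX7
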